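import Pool.Agent.Y882.GX.Pt2

/-!
# The Goldbach-Knjzek-Rivera window for every large even number, with at most five prime factors

Every large even `N` is `p + m` with a prime `p`, `√N < p < 4 √N`, and `m` with at most five prime
factors, all of them at least `N ^ 0.099`; the number of such `p` has the expected order of
magnitude. No even number is excepted.
-/

set_option autoImplicit false

open Finset Filter

namespace Pool.Agent.Results.MP_b454d1_nt.EveryEvenFive

/-- the variable part of the singular series of the Goldbach problem -/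
noncomputable def sing (N : ℕ) : ℝ :=
  ∏ p ∈ N.primeFactors.erase 2, (((p : ℝ) - 1) / ((p : ℝ) - 2))

open Classical in
/-- The number of the primes `p < N` with `√N < p < 4 √N` such that `N - p` has at most `r` prime
factors (counted with multiplicity), all of them at least `w`. -/
noncomputable def inSqrt (r : ℕ) (w : ℝ) (N : ℕ) : ℕ :=
  ((range N).filter (fun p : ℕ => p.Prime ∧ √(N : ℝ) < p ∧ (p : ℝ) < 4 * √(N : ℝ) ∧
    (N - p).primeFactorsList.length ≤ r ∧
    ∀ q : ℕ, q.Prime → q ∣ (N - p) → w ≤ q)).card

/-- **Rivera's window for every even number.** There are `δ > 0` and `N₀` such that every even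
`N ≥ N₀` has at least `δ sing N √N / (log N) ^ 2` primes `p` with `√N < p < 4 √N` such that `N - p`
has at most five prime factors, all of them at least `N ^ 0.099`. -/
theorem result : ∃ δ : ℝ, 0 < δ ∧ ∃ N₀ : ℕ, ∀ N : ℕ, N₀ ≤ N → Even N →
    δ * sing N * (√(N : ℝ) / Real.log N ^ 2) ≤ (inSqrt 5 ((N : ℝ) ^ ((99 : ℝ) / 1000)) N : ℝ) :=
  Pool.Agent.Y882.GX.sqrtAll

end Pool.Agent.Results.MP_b454d1_nt.EveryEvenFive
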