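import Pool.Agent.Results.MP_b454d1_nt.RiveraWindows
import Pool.Agent.Helper203.NP.Two

/-!
# Rivera's window for ALL even numbers near the powers of a number, and near `n ^ α`

By the starting result `SqrtWindowFewExceptions` all but `O (X ^ (1 / 2 + ε))` even `N ≤ X` have the expected number (up
to a constant) of primes `p` with `√N < p < 4 √N` such that `N - p` has at most three prime factors, and at most two if
`O (X ^ (13 / 22 + ε))` exceptions are allowed. It says nothing about given numbers `N`. Here we consider ALL even numbers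
in windows around `β z ^ (ν n)` (for instance the even numbers next to the powers `z ^ n` of a real number `z > 1`), and
around `n ^ α`.
-/

set_option autoImplicit false

open Finset MeasureTheory Filter Topology

namespace Pool.Agent.Results.MP_b454d1_nt.RiveraNearPowers

open RiveraWindows

/-- At least `δ 𝔖(N) √N / (log N) ^ 2` primes `p` with `√N < p < 4 √N` are such that `N - p` has at most `r` prime
factors, all of them at least `N ^ ζ / 2`. -/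
def Rep (r : ℕ) (ζ δ : ℝ) (N : ℕ) : Prop :=
  δ * sing N * (√(N : ℝ) / Real.log N ^ 2) ≤ (inSqrt r ((N : ℝ) ^ ζ / 2) N : ℝ)

lemma rep_of {r : ℕ} {ζ δ : ℝ} {N : ℕ} (hN : Even N) (h : N ∉ Exc r ζ δ) : Rep r ζ δ N := by
  by_contra hcon
  exact h ⟨hN, not_le.1 hcon⟩

lemma counts (r : ℕ) (u ζ s : ℝ)
    (hpar : (r = 3 ∧ 1 / 2 ≤ u ∧ ζ = 2 / 5 * u) ∨ (r = 2 ∧ 6 / 11 ≤ u ∧ ζ = u / 4))
    (hu : u < 1) (hs : 2 * u - 1 / 2 < s) :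
    ∃ δ : ℝ, 0 < δ ∧ ∀ ε : ℝ, 0 < ε → ∃ C : ℝ, ∀ X : ℝ, 1 ≤ X →
      {t : ℕ | t ∈ Exc r ζ δ ∧ (t : ℝ) ≤ X}.Finite ∧
      ({t : ℕ | t ∈ Exc r ζ δ ∧ (t : ℝ) ≤ X}.ncard : ℝ) ≤ C * X ^ (s + ε) := by
  obtain ⟨δ, hδ, h⟩ := count r u ζ s hpar hu hs
  have hs0 : 0 ≤ s := by
    rcases hpar with ⟨-, h, -⟩ | ⟨-, h, -⟩ <;> linarith
  exact ⟨δ, hδ, fun ε hε => Pool.Agent.V11001.KM.count_of_nat _ hs0 hε (h ε hε)⟩

/-- **Theorem.** (1) Let `r = 3`, `1 / 2 ≤ u < 1`, `ζ = 2 u / 5`, or `r = 2`, `6 / 11 ≤ u < 1`, `ζ = u / 4`, and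
`s > 2 u - 1 / 2`. There is `δ > 0` such that: (a) if `ν n / log n → ∞`, `θ < 1` and `B` is a countable set, then for all
`z > 1` outside a set of Hausdorff dimension at most `s / (1 - θ)`, all `β > 0` in `B` and all large `n`, `Rep r ζ δ N`
holds for ALL even `N` with `|N - β z ^ (ν n)| ≤ z ^ (θ ν n)`; (b) if `0 ≤ θ < 1`, then for all `α > 0` outside a set whose
part in `[a, ∞)` has dimension at most `(s + 1 / a) / (1 - θ)` for every `a > 0`, `Rep r ζ δ N` holds for all large `n`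
and ALL even `N` with `|N - n ^ α| ≤ n ^ (α θ)`. (2) Let `ν n / log n → ∞` and `B` countable. For almost every `z > 1`,
all `β > 0` in `B` and all `θ < 1 / 2` there are `δ > 0`, `n₀` such that ALL even `N` with
`|N - β z ^ (ν n)| ≤ z ^ (θ ν n)`, `n ≥ n₀`, have at least `δ 𝔖(N) √N / (log N) ^ 2` primes `p` with `√N < p < 4 √N` such
that `N - p` has at most three prime factors, all of them at least `N ^ (1 / 5) / 2`; if `θ < 9 / 22`, the same with at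
most two prime factors, all of them at least `N ^ (3 / 22) / 2`. (3) For almost every `α > 0` the same holds for the even
`N` with `|N - n ^ α| ≤ n ^ (α θ)`, `0 ≤ θ < 1 / 2 - 1 / α` for three and `0 ≤ θ < 9 / 22 - 1 / α` for two prime
factors. -/
theorem result :
    (∀ (r : ℕ) (u ζ s : ℝ),
      ((r = 3 ∧ 1 / 2 ≤ u ∧ ζ = 2 / 5 * u) ∨ (r = 2 ∧ 6 / 11 ≤ u ∧ ζ = u / 4)) → u < 1 →
      2 * u - 1 / 2 < s → ∃ δ : ℝ, 0 < δ ∧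
      (∀ (ν : ℕ → ℝ) (θ : ℝ) (B : Set ℝ), Tendsto (fun n : ℕ => ν n / Real.log n) atTop atTop → θ < 1 →
        B.Countable → ∃ E : Set ℝ, dimH E ≤ ENNReal.ofReal (s / (1 - θ)) ∧ ∀ z : ℝ, 1 < z → z ∉ E →
          ∀ β ∈ B, 0 < β → ∃ n₀ : ℕ, ∀ n : ℕ, n₀ ≤ n → ∀ N : ℕ, Even N →
            |(N : ℝ) - β * z ^ ν n| ≤ z ^ (θ * ν n) → Rep r ζ δ N) ∧
      (∀ θ : ℝ, 0 ≤ θ → θ < 1 →
        ∃ E : Set ℝ, (∀ a : ℝ, 0 < a → dimH (E ∩ Set.Ici a) ≤ ENNReal.ofReal ((s + 1 / a) / (1 - θ))) ∧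
          ∀ α : ℝ, 0 < α → α ∉ E → ∃ n₀ : ℕ, ∀ n : ℕ, n₀ ≤ n → ∀ N : ℕ, Even N →
            |(N : ℝ) - (n : ℝ) ^ α| ≤ ((n : ℝ) ^ α) ^ θ → Rep r ζ δ N)) ∧
    (∀ (ν : ℕ → ℝ) (B : Set ℝ), Tendsto (fun n : ℕ => ν n / Real.log n) atTop atTop → B.Countable →
      ∀ᵐ z : ℝ, 1 < z → ∀ β ∈ B, 0 < β → ∀ θ : ℝ,
        (θ < 1 / 2 → ∃ δ : ℝ, 0 < δ ∧ ∃ n₀ : ℕ, ∀ n : ℕ, n₀ ≤ n → ∀ N : ℕ, Even N →
          |(N : ℝ) - β * z ^ ν n| ≤ z ^ (θ * ν n) → Rep 3 (1 / 5) δ N) ∧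
        (θ < 9 / 22 → ∃ δ : ℝ, 0 < δ ∧ ∃ n₀ : ℕ, ∀ n : ℕ, n₀ ≤ n → ∀ N : ℕ, Even N →
          |(N : ℝ) - β * z ^ ν n| ≤ z ^ (θ * ν n) → Rep 2 (3 / 22) δ N)) ∧
    (∀ᵐ α : ℝ, 0 < α → ∀ θ : ℝ, 0 ≤ θ →
      (θ < 1 / 2 - 1 / α → ∃ δ : ℝ, 0 < δ ∧ ∃ n₀ : ℕ, ∀ n : ℕ, n₀ ≤ n → ∀ N : ℕ, Even N →
        |(N : ℝ) - (n : ℝ) ^ α| ≤ ((n : ℝ) ^ α) ^ θ → Rep 3 (1 / 5) δ N) ∧
      (θ < 9 / 22 - 1 / α → ∃ δ : ℝ, 0 < δ ∧ ∃ n₀ : ℕ, ∀ n : ℕ, n₀ ≤ n → ∀ N : ℕ, Even N →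
        |(N : ℝ) - (n : ℝ) ^ α| ≤ ((n : ℝ) ^ α) ^ θ → Rep 2 (3 / 22) δ N)) := by
  have hp : ∀ k : ℕ, (0 : ℝ) < 1 / ((k : ℝ) + 1) := fun k => by positivity
  have h3 := fun k : ℕ => counts 3 (1 / 2) (1 / 5) (1 / 2 + 1 / ((k : ℝ) + 1))
    (Or.inl ⟨rfl, le_rfl, by norm_num⟩) (by norm_num) (by have := hp k; linarith)
  have h2 := fun k : ℕ => counts 2 (6 / 11) (3 / 22) (13 / 22 + 1 / ((k : ℝ) + 1))
    (Or.inr ⟨rfl, le_rfl, by norm_num⟩) (by norm_num) (by have := hp k; linarith)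
  choose δ3 hδ3 c3 using h3
  choose δ2 hδ2 c2 using h2
  refine ⟨fun r u ζ s hpar hu hs => ?_, fun ν B hν hB => ?_, ?_⟩
  · obtain ⟨δ, hδ, hc⟩ := counts r u ζ s hpar hu hs
    have hs0 : 0 ≤ s := by
      rcases hpar with ⟨-, h, -⟩ | ⟨-, h, -⟩ <;> linarith
    refine ⟨δ, hδ, fun ν θ B hν hθ1 hB => ?_, fun θ hθ0 hθ1 => ?_⟩
    · obtain ⟨E, hE1, hE2⟩ := Pool.Agent.Helper203.NP.powers_set (Exc r ζ δ) hν B hB hs0 hθ1 hc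
      refine ⟨E, hE1, fun z hz hzE β hβ hβ0 => ?_⟩
      obtain ⟨n₀, hn₀⟩ := hE2 z hz hzE β hβ hβ0
      exact ⟨n₀, fun n hn N hN hw => rep_of hN (hn₀ n hn N hw)⟩
    · obtain ⟨E, hE1, hE2⟩ := (Pool.Agent.H164.LS.three (Exc r ζ δ) hs0 hθ0 hθ1 (fun ε hε => by
        obtain ⟨C, hC⟩ := hc ε hε
        exact ⟨C, fun X hX => (hC X hX).2⟩)).2.2
      refine ⟨E, hE1, fun α hα hαE => ?_⟩
      obtain ⟨n₀, hn₀⟩ := hE2 α hα hαE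
      exact ⟨n₀, fun n hn N hN hw => rep_of hN (hn₀ n hn N hw)⟩
  · filter_upwards [Pool.Agent.Helper203.NP.ae_powers (fun k => Exc 3 (1 / 5) (δ3 k)) (s := 1 / 2) (by norm_num)
      hν B hB c3, Pool.Agent.Helper203.NP.ae_powers (fun k => Exc 2 (3 / 22) (δ2 k)) (s := 13 / 22) (by norm_num)
      hν B hB c2] with z g3 g2 hz β hβ hβ0 θ
    refine ⟨fun hθ => ?_, fun hθ => ?_⟩
    · obtain ⟨k, n₀, hn₀⟩ := g3 hz β hβ hβ0 θ (by linarith)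
      exact ⟨δ3 k, hδ3 k, n₀, fun n hn N hN hw => rep_of hN (hn₀ n hn N hw)⟩
    · obtain ⟨k, n₀, hn₀⟩ := g2 hz β hβ hβ0 θ (by linarith)
      exact ⟨δ2 k, hδ2 k, n₀, fun n hn N hN hw => rep_of hN (hn₀ n hn N hw)⟩
  · filter_upwards [Pool.Agent.Helper203.NP.ae_exps (fun k => Exc 3 (1 / 5) (δ3 k)) (s := 1 / 2) (by norm_num) c3,
      Pool.Agent.Helper203.NP.ae_exps (fun k => Exc 2 (3 / 22) (δ2 k)) (s := 13 / 22) (by norm_num) c2]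
      with α g3 g2 hα θ hθ0
    refine ⟨fun hθ => ?_, fun hθ => ?_⟩
    · obtain ⟨k, n₀, hn₀⟩ := g3 hα θ hθ0 (by linarith)
      exact ⟨δ3 k, hδ3 k, n₀, fun n hn N hN hw => rep_of hN (hn₀ n hn N hw)⟩
    · obtain ⟨k, n₀, hn₀⟩ := g2 hα θ hθ0 (by linarith)
      exact ⟨δ2 k, hδ2 k, n₀, fun n hn N hN hw => rep_of hN (hn₀ n hn N hw)⟩

end Pool.Agent.Results.MP_b454d1_nt.RiveraNearPowers
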